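import Pool.Agent.KTB.StmtsKA

/-!
# Squad KTB, row TRM
-/

set_option autoImplicit false

namespace Pool.Agent.KTB.H69

open Pool.Agent.KTB Finset
open scoped Classical

/-- **TRM** -/
theorem trm (hSTS : StsStmt) (hGNR : GnrStmt) : TrmStmt := by
  intro ι T _ D S hLL hV
  by_cases hN : D.N S = ∅
  · refine ⟨∅, hLL, ?_, ?_⟩
    · rw [hN]
      refine ⟨?_, ?_⟩
      · intro k hk
        exact absurd hk (Finset.notMem_empty k)
      · intro a ha
        exact absurd ha (Finset.notMem_empty a)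
    · intro M' hM'
      rw [hN] at hM'
      rw [Finset.eq_empty_iff_forall_notMem]
      intro k hk
      obtain ⟨y, hy, -⟩ := hM'.1 k hk
      exact absurd hy (Finset.notMem_empty y)
  · obtain ⟨ρ, hρ, hρN⟩ := hGNR ι T D S
    obtain ⟨a, ha⟩ := Finset.nonempty_iff_ne_empty.mpr hN
    have hρ0 : ρ ≠ 0 := by
      intro h
      exact hρN a ha (by rw [h]; rfl)
    have hsupp : (univ.filter fun a => ρ a ≠ 0) = D.N S := by
      ext b
      rw [Finset.mem_filter]
      constructor
      · rintro ⟨-, hb⟩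
        have hbS : b ∈ S := by
          by_contra hcon
          exact hb (hρ.2 b hcon)
        unfold Dat.N
        rw [Finset.mem_filter]
        exact ⟨hbS, ρ, hρ, hb⟩
      · intro hb
        exact ⟨Finset.mem_univ b, hρN b hb⟩
    obtain ⟨h1, h2⟩ := hSTS ι T D S hLL ρ hρ hρ0 (fun R hR => absurd hR (hV R))
    obtain ⟨h3, -⟩ := hSTS ι T D S hLL (-ρ) ((D.R S).neg_mem hρ) (neg_ne_zero.mpr hρ0)
      (fun R hR => absurd hR (hV R))
    have hsum : ∑ a, ρ a = 0 := by
      have h4 : ∑ a, (-ρ) a = -∑ a, ρ a := by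
        simp only [Pi.neg_apply, Finset.sum_neg_distrib]
      rw [h4] at h3
      linarith
    obtain ⟨M, hM, hMu⟩ := h2 hsum
    rw [hsupp] at hM hMu
    exact ⟨M, hLL, hM, hMu⟩

end Pool.Agent.KTB.H69
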